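import Pool.Agent.LKU.AMain
import Pool.Agent.LKU.LimEx

/-!
The asymptotic value of the edge density of graphs with bounded local connectivity:
`L_k = (4 - 2√3 + o(1)) k`.
-/

namespace Pool.Agent.Results.MP_f17e6f_co.AsymptoticValue

open SimpleGraph Filter Topology Pool.Agent.LocalConn

/-- `f(n; κ̄ ≤ k)`: the largest number of edges of a graph on `n` vertices in which any two
distinct vertices are joined by at most `k` pairwise internally disjoint paths. -/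
noncomputable def maxEdges (n k : ℕ) : ℕ :=
  sSup {e | ∃ G : SimpleGraph (Fin n), LocalConnLe G k ∧ e = G.edgeSet.ncard}

theorem maxEdges_eq : maxEdges = LKU.maxEdges := rfl

theorem upper (ε : ℝ) (hε : 0 < ε) : ∃ k₀ : ℕ, ∀ k : ℕ, k₀ ≤ k → ∀ n : ℕ,
    (maxEdges n k : ℝ) ≤ (4 - 2 * √3 + ε) * k * n := by
  classical
  obtain ⟨k₀, h⟩ := LKU.edges_le_be ε hε
  refine ⟨k₀, fun k hk n => ?_⟩
  have hmem : maxEdges n k ∈ {e | ∃ G : SimpleGraph (Fin n), LocalConnLe G k ∧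
      e = G.edgeSet.ncard} := by
    apply Nat.sSup_mem
    · refine ⟨_, ⊥, ?_, rfl⟩
      intro x y hxy m hp
      obtain ⟨p, -, -⟩ := hp
      by_contra hm
      have hm0 : 0 < m := by omega
      have hw := (p ⟨0, hm0⟩).1
      cases hw with
      | nil => exact hxy rfl
      | cons h' _ => exact h'
    · apply Set.Finite.bddAbove
      apply (Set.finite_range (fun G : SimpleGraph (Fin n) => G.edgeSet.ncard)).subset
      rintro e ⟨G, -, rfl⟩
      exact ⟨G, rfl⟩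
  obtain ⟨G, hG, he⟩ := hmem
  have h1 := h k hk (Fin n) G hG
  rw [Fintype.card_fin] at h1
  rw [he]
  exact h1

theorem lower_limit (k : ℕ) (L : ℝ) (hk : 1 ≤ k)
    (hL : Tendsto (fun n : ℕ => (maxEdges n k : ℝ) / n) atTop (𝓝 L)) :
    (4 - 2 * √3) * k ≤ L := by
  obtain ⟨C, hC⟩ := LKU.linear_bound k hk
  have h1 : Tendsto (fun n : ℕ => (4 - 2 * √3) * k - C / n) atTop (𝓝 ((4 - 2 * √3) * k - 0)) :=
    tendsto_const_nhds.sub (tendsto_const_div_atTop_nhds_zero_nat C)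
  rw [sub_zero] at h1
  apply le_of_tendsto_of_tendsto h1 hL
  filter_upwards [eventually_gt_atTop 0] with n hn
  have hn' : (0 : ℝ) < n := by exact_mod_cast hn
  rw [le_div_iff₀ hn', sub_mul, div_mul_cancel₀ _ hn'.ne']
  exact hC n

theorem upper_limit {k : ℕ} {L c : ℝ} (h : ∀ n : ℕ, (maxEdges n k : ℝ) ≤ c * n)
    (hL : Tendsto (fun n : ℕ => (maxEdges n k : ℝ) / n) atTop (𝓝 L)) : L ≤ c := by
  apply le_of_tendsto hL
  filter_upwards [eventually_gt_atTop 0] with n hn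
  have hn' : (0 : ℝ) < n := by exact_mod_cast hn
  rw [div_le_iff₀ hn']
  exact h n

/-- **Main theorem.** (1) For every `ε > 0`, all large `k` and every `n`:
`f(n; κ̄ ≤ k) ≤ (4 - 2√3 + ε) k n`. (2) For every `k ≥ 1` there is `C` with
`f(n; κ̄ ≤ k) ≥ (4 - 2√3) k n - C` for all `n`. (3) `L_k / k → 4 - 2√3`, where `L_k` is the limit of
`f(n; κ̄ ≤ k) / n` (it exists for all large `k`). -/
theorem result :
    (∀ ε : ℝ, 0 < ε → ∃ k₀ : ℕ, ∀ k : ℕ, k₀ ≤ k → ∀ n : ℕ,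
      (maxEdges n k : ℝ) ≤ (4 - 2 * √3 + ε) * k * n) ∧
    (∀ k : ℕ, 1 ≤ k → ∃ C : ℝ, ∀ n : ℕ, (4 - 2 * √3) * k * n - C ≤ maxEdges n k) ∧
    (∃ L : ℕ → ℝ,
      (∀ᶠ k in atTop, Tendsto (fun n : ℕ => (maxEdges n k : ℝ) / n) atTop (𝓝 (L k))) ∧
      Tendsto (fun k : ℕ => L k / k) atTop (𝓝 (4 - 2 * √3))) := by
  refine ⟨upper, LKU.linear_bound, ?_⟩
  obtain ⟨k₁, h₁⟩ := upper 1 one_pos
  choose! L hL using fun k (hk : k₁ ≤ k) => LKU.exists_limit k _ (h₁ k hk)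
  have hL' : ∀ᶠ k in atTop, Tendsto (fun n : ℕ => (maxEdges n k : ℝ) / n) atTop (𝓝 (L k)) := by
    filter_upwards [eventually_ge_atTop k₁] with k hk
    exact hL k hk
  refine ⟨L, hL', ?_⟩
  rw [Metric.tendsto_nhds]
  intro ε hε
  obtain ⟨k₀, h⟩ := upper (ε / 2) (by positivity)
  filter_upwards [hL', eventually_ge_atTop k₀, eventually_ge_atTop 1] with k h1 h2 h3
  have hk : (0 : ℝ) < k := by exact_mod_cast (by omega : 0 < k)
  have h4 := upper_limit (h k h2) h1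
  have h5 := lower_limit k (L k) h3 h1
  rw [Real.dist_eq, abs_lt]
  have h6 : L k / k ≤ 4 - 2 * √3 + ε / 2 := by
    rw [div_le_iff₀ hk]; exact h4
  have h7 : 4 - 2 * √3 ≤ L k / k := by
    rw [le_div_iff₀ hk]; exact h5
  constructor <;> linarith

end Pool.Agent.Results.MP_f17e6f_co.AsymptoticValue
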