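import Pool.Agent.LKU.Lower

/-!
An explicit lower bound, for all `k` and `n`, for the number of edges of graphs with bounded local
connectivity.
-/

namespace Pool.Agent.Results.MP_f17e6f_co.ExplicitLowerBound

open SimpleGraph Pool.Agent.LocalConn

/-- `f(n; κ̄ ≤ k)`: the largest number of edges of a graph on `n` vertices in which any two
distinct vertices are joined by at most `k` pairwise internally disjoint paths. -/
noncomputable def maxEdges (n k : ℕ) : ℕ :=
  sSup {e | ∃ G : SimpleGraph (Fin n), LocalConnLe G k ∧ e = G.edgeSet.ncard}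

/-- For all `n` and `1 ≤ a ≤ k` with `2 a ≤ k + 2`:
`2 f(n; κ̄ ≤ k) ≥ (a+1)(k+1-a)(k+a) ⌊(n-1) / ((a+1)(k+1-a) + C(a+1,2) - 1)⌋`. -/
theorem result (k a n : ℕ) (ha : 1 ≤ a) (hak : a ≤ k) (h2 : 2 * a ≤ k + 2) :
    (a + 1) * (k + 1 - a) * (k + a) *
      ((n - 1) / ((a + 1) * (k + 1 - a) + (a + 1).choose 2 - 1)) ≤ 2 * maxEdges n k :=
  LKU.block_bound k a n ha hak h2

end Pool.Agent.Results.MP_f17e6f_co.ExplicitLowerBound
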